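import Pool.Agent.Helper98.EQ.Goals
import Pool.Agent.Helper89.EP.EXI
import Mathlib

/-!
# Packet EQ-EXI (MP_5b9a11_al): a primitive `D`-invariant idempotent

Adapted from `Pool/Agent/Helper89/EP/EXI.lean`.
-/

set_option autoImplicit false

namespace Pool.Agent.Helper51.EQ.EXI

open MonoidAlgebra Pool.Agent.Helper17.PF Pool.Agent.Helper98.EQ
open Pool.Agent.Helper47.EP (Dat Chr Hs Om ee ev pHB)

theorem t : Pool.Agent.Helper98.EQ.S_EXI := by
  intro p _ T A _ _ D _ M F _ C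
  obtain ⟨b1, b2, b3, b4, b5, b6, b7⟩ := pHB p T A F C
  have hev : ev C (0 : A → T.K) = ee C A := by
    rw [ev]
    have h2 : (⟨0, 0⟩ : Hs T A) = 1 := rfl
    rw [h2, ← MonoidAlgebra.one_def, one_mul]
  have hil : C.il ≠ 0 := by
    intro h
    have h2 := C.il_mul
    rw [h, zero_mul] at h2
    exact zero_ne_one h2
  have hcoeff : ∀ g : Hs T A, (ee C A).coeff g = if g.v = 0 then C.il * C.ψ (-g.z) else 0 := by
    intro g
    rw [← hev]
    exact b5 0 g
  have hl : Pool.Agent.Helper89.EP.EXI.cf (1 : Hs T A) (ee C A) ≠ 0 := by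
    change (ee C A).coeff 1 ≠ 0
    rw [hcoeff, if_pos (Pool.Agent.Helper47.EP.Hs.one_v), Pool.Agent.Helper47.EP.Hs.one_z, neg_zero,
      AddChar.map_zero_eq_one, mul_one]
    exact hil
  have hm0 : ∀ d : D, M.m d 0 = 0 := by
    intro d
    have h := M.add d 0 0
    rw [add_zero] at h
    exact left_eq_add.1 h
  have hm : ∀ (d : D) (v : A → T.K), M.m d v = 0 ↔ v = 0 := by
    intro d v
    constructor
    · intro h
      rw [← M.inv_left d v, h]
      exact hm0 _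
    · intro h
      rw [h]
      exact hm0 _
  have hmem : ee C A ∈ {x : MonoidAlgebra F (Hs T A) | ee C A * x = x ∧ Iv M x} := by
    refine ⟨b1, fun d g ↦ ?_⟩
    rw [hcoeff, hcoeff, M.s_apply]
    by_cases h : g.v = 0
    · rw [if_pos h, if_pos ((hm d g.v).2 h)]
    · rw [if_neg h, if_neg (fun h' ↦ h ((hm d g.v).1 h'))]
  have hS : ∀ x ∈ {x : MonoidAlgebra F (Hs T A) | ee C A * x = x ∧ Iv M x},
      ∀ y ∈ {x : MonoidAlgebra F (Hs T A) | ee C A * x = x ∧ Iv M x},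
      x - y ∈ {x : MonoidAlgebra F (Hs T A) | ee C A * x = x ∧ Iv M x} := by
    rintro x ⟨hx1, hx2⟩ y ⟨hy1, hy2⟩
    refine ⟨by rw [mul_sub, hx1, hy1], fun d g ↦ ?_⟩
    have h3 := hx2 d g
    have h4 := hy2 d g
    simp only [MonoidAlgebra.coeff_sub, Finsupp.coe_sub, Pi.sub_apply, h3, h4]
  obtain ⟨i, hi, hi'⟩ := Pool.Agent.Helper89.EP.EXI.exists_prim (F := F) _ hS
    (Pool.Agent.Helper89.EP.EXI.cf (1 : Hs T A)) _ _ hmem b1 hl le_rfl
  exact ⟨i, hi, hi'⟩

end Pool.Agent.Helper51.EQ.EXI
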